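import Pool.Agent.TH297.Liou.Sol

set_option autoImplicit false
open MeasureTheory Filter Topology Set Laplacian InnerProductSpace

namespace Pool.Agent.TH297.Liou

variable {N : ℝ} {m : ℕ} {l : ℝ}

lemma exp_sol (hl : 0 < l) {x : E2} (hx : x ≠ 0) :
    Real.exp (sol N m l x) = 8 * ((m : ℝ) + 1) ^ 2 * l ^ (2 * m + 2) * ‖x‖ ^ (2 * N) /
      (‖Pz m l (L x)‖ ^ 2 + 1 ^ 2) ^ 2 := by
  have hxp : 0 < ‖x‖ := norm_pos_iff.2 hx
  have hA : 0 < 8 * ((m : ℝ) + 1) ^ 2 * l ^ (2 * m + 2) := by positivity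
  have hB : 0 < ‖Pz m l (L x)‖ ^ 2 + 1 ^ 2 := by positivity
  have h1 : 2 * N * Real.log ‖x‖ = Real.log (‖x‖ ^ (2 * N)) := (Real.log_rpow hxp _).symm
  have h2 : 2 * Real.log (‖Pz m l (L x)‖ ^ 2 + 1 ^ 2) =
      Real.log ((‖Pz m l (L x)‖ ^ 2 + 1 ^ 2) ^ 2) := by
    rw [Real.log_pow]; push_cast; ring
  rw [sol, W, h1, h2, Real.exp_add, Real.exp_sub, Real.exp_log (by positivity),
    Real.exp_log hA, Real.exp_log (by positivity)]
  ring

lemma sol_le (hN : 0 ≤ N) (hm : N < m + 1) {Λ : ℝ}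
    (hΛ : Real.log (72 * ((m : ℝ) + 1) ^ 2) + 1 ≤ (2 * m + 2 - 2 * N) * Λ) {x : E2} (hx : x ≠ 0) :
    sol N m (Real.exp (-Λ)) x ≤ -1 := by
  have hxp : 0 < ‖x‖ := norm_pos_iff.2 hx
  set l := Real.exp (-Λ) with hl
  have hlp : 0 < l := Real.exp_pos _
  have hP : ‖Pz m l (L x)‖ ≥ |(l * ‖x‖) ^ (m + 1) - 1| := by
    have h1 := abs_norm_sub_norm_le (((l : ℂ) * L x) ^ (m + 1)) 1
    rw [norm_pow, norm_mul, Complex.norm_real, Real.norm_eq_abs, abs_of_pos hlp,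
      LinearIsometryEquiv.norm_map, norm_one] at h1
    exact h1
  set y := (l * ‖x‖) ^ (m + 1) with hy
  have hy0 : 0 ≤ y := by positivity
  have hB : (1 + y ^ 2) / 3 ≤ ‖Pz m l (L x)‖ ^ 2 + 1 ^ 2 := by
    have h1 : (y - 1) ^ 2 ≤ ‖Pz m l (L x)‖ ^ 2 := by
      rw [← sq_abs (y - 1)]
      exact pow_le_pow_left₀ (abs_nonneg _) hP 2
    nlinarith [sq_nonneg (y - 3 / 2)]
  have hρ : (l * ‖x‖) ^ (2 * N) ≤ 1 + y ^ 2 := by
    have h0 : 0 ≤ l * ‖x‖ := by positivity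
    rcases le_total (l * ‖x‖) 1 with h | h
    · have h1 : (l * ‖x‖) ^ (2 * N) ≤ 1 := Real.rpow_le_one h0 h (by positivity)
      nlinarith [sq_nonneg y]
    · have h1 : (l * ‖x‖) ^ (2 * N) ≤ (l * ‖x‖) ^ (2 * ((m : ℝ) + 1)) :=
        Real.rpow_le_rpow_of_exponent_le h (by linarith)
      have h2 : (l * ‖x‖) ^ (2 * ((m : ℝ) + 1)) = y ^ 2 := by
        rw [hy, ← pow_mul, ← Real.rpow_natCast]
        congr 1
        push_cast; ring
      linarith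
  have hll : l ^ (2 * m + 2) * ‖x‖ ^ (2 * N) =
      Real.exp (-((2 * m + 2 - 2 * N) * Λ)) * (l * ‖x‖) ^ (2 * N) := by
    rw [Real.mul_rpow hlp.le hxp.le, ← mul_assoc]
    congr 1
    rw [hl, ← Real.exp_mul, ← Real.exp_nat_mul, ← Real.exp_add]
    congr 1
    push_cast
    ring
  have hexp : Real.exp (sol N m l x) ≤ Real.exp (-1) := by
    rw [exp_sol hlp hx, mul_assoc (8 * ((m : ℝ) + 1) ^ 2), hll]
    have hz : 1 ≤ 1 + y ^ 2 := by nlinarith [sq_nonneg y]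
    have hB2 : ((1 + y ^ 2) / 3) ^ 2 ≤ (‖Pz m l (L x)‖ ^ 2 + 1 ^ 2) ^ 2 :=
      pow_le_pow_left₀ (by positivity) hB 2
    have h72 : 72 * ((m : ℝ) + 1) ^ 2 * Real.exp (-((2 * m + 2 - 2 * N) * Λ)) ≤ Real.exp (-1) := by
      have h3 : 0 < 72 * ((m : ℝ) + 1) ^ 2 := by positivity
      rw [← Real.exp_log h3, ← Real.exp_add, Real.exp_le_exp]
      linarith
    rw [div_le_iff₀ (by positivity)]
    calc 8 * ((m : ℝ) + 1) ^ 2 * (Real.exp (-((2 * m + 2 - 2 * N) * Λ)) * (l * ‖x‖) ^ (2 * N))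
        ≤ 8 * ((m : ℝ) + 1) ^ 2 * (Real.exp (-((2 * m + 2 - 2 * N) * Λ)) * (1 + y ^ 2)) := by
          gcongr
      _ = (72 * ((m : ℝ) + 1) ^ 2 * Real.exp (-((2 * m + 2 - 2 * N) * Λ))) *
            ((1 + y ^ 2) / 9) := by ring
      _ ≤ Real.exp (-1) * ((1 + y ^ 2) / 9) := by gcongr
      _ ≤ Real.exp (-1) * (‖Pz m l (L x)‖ ^ 2 + 1 ^ 2) ^ 2 := by
          refine mul_le_mul_of_nonneg_left ?_ (Real.exp_pos _).le
          refine le_trans ?_ hB2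
          nlinarith
  exact Real.exp_le_exp.1 hexp

lemma exists_scale (hm : N < m + 1) :
    ∃ Λ : ℝ, Real.log (72 * ((m : ℝ) + 1) ^ 2) + 1 ≤ (2 * m + 2 - 2 * N) * Λ := by
  have h : 0 < 2 * (m : ℝ) + 2 - 2 * N := by linarith
  refine ⟨(Real.log (72 * ((m : ℝ) + 1) ^ 2) + 1) / (2 * m + 2 - 2 * N), ?_⟩
  rw [mul_div_cancel₀ _ h.ne']

/-- the right-hand side of the equation -/
lemma rhs_eq (hl : 0 < l) (hs : ∀ x : E2, x ≠ 0 → sol N m l x ≤ -1) {x : E2} (hx : x ≠ 0) :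
    ‖x‖ ^ (2 * ((m : ℝ) - N)) * qf (Real.exp (sol N m l x)) = -Δ (W m l) x := by
  have hxp : 0 < ‖x‖ := norm_pos_iff.2 hx
  rw [qf_exp, gf_of_le (hs x hx), exp_sol hl hx, laplacian_W hl, neg_neg, mul_div_assoc']
  congr 1
  have h1 : ‖x‖ ^ (2 * ((m : ℝ) - N)) * ‖x‖ ^ (2 * N) = ‖x‖ ^ (2 * m) := by
    rw [← Real.rpow_add hxp, ← Real.rpow_natCast]
    congr 1
    push_cast; ring
  rw [← h1]; ring

lemma ae_ne : ∀ᵐ x : E2, x ≠ 0 := by
  rw [ae_iff]; simp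

lemma continuous_lapW (m : ℕ) (l : ℝ) : Continuous (Δ (W m l)) :=
  Pool.Agent.H314.CS.LL.continuous_laplacian (contDiff_infty.1 (contDiff_W m l) 2)

lemma locInt_rhs (hl : 0 < l) (hs : ∀ x : E2, x ≠ 0 → sol N m l x ≤ -1) :
    LocallyIntegrable
      (fun x : E2 => ‖x‖ ^ (2 * ((m : ℝ) - N)) * qf (Real.exp (sol N m l x))) := by
  have h1 : LocallyIntegrable (fun x : E2 => -Δ (W m l) x) :=
    (continuous_lapW m l).neg.locallyIntegrable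
  rw [locallyIntegrable_iff] at h1 ⊢
  intro K hK
  refine (h1 K hK).congr ?_
  filter_upwards [ae_restrict_of_ae ae_ne] with x hx
  rw [rhs_eq hl hs hx]

lemma locInt_sol (N : ℝ) (m : ℕ) (l : ℝ) : LocallyIntegrable (sol N m l) := by
  have h1 : LocallyIntegrable (fun x : E2 => (2 * N) • Real.log ‖x‖) :=
    Pool.Agent.H314.CS.LL.locInt_log0.smul (2 * N)
  exact h1.add (contDiff_W m l).continuous.locallyIntegrable

lemma smooth_sol (N : ℝ) (m : ℕ) (l : ℝ) :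
    ContDiffOn ℝ ((⊤ : ℕ∞) : WithTop ℕ∞) (sol N m l) {0}ᶜ := by
  intro x hx
  have hx0 : x ≠ 0 := hx
  refine ContDiffAt.contDiffWithinAt ?_
  unfold sol
  refine (contDiffAt_const.mul ?_).add (contDiff_W m l).contDiffAt
  exact (contDiffAt_norm ℝ hx0).log (norm_ne_zero_iff.2 hx0)

lemma equation (hl : 0 < l) (hs : ∀ x : E2, x ≠ 0 → sol N m l x ≤ -1) {φ : E2 → ℝ}
    (hφ : ContDiff ℝ ((⊤ : ℕ∞) : WithTop ℕ∞) φ) (hc : HasCompactSupport φ) :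
    (∫ x, sol N m l x * Δ φ x) +
      (∫ x, ‖x‖ ^ (2 * ((m : ℝ) - N)) * qf (Real.exp (sol N m l x)) * φ x) =
      4 * Real.pi * N * φ 0 := by
  have hd := Pool.Agent.H314.CS.dist_identity (N := 1) (fun _ => 0) (fun _ => 2 * N) (W m l) φ
    (contDiff_infty.1 (contDiff_W m l) 2) (contDiff_infty.1 hφ 2) hc
  simp only [Finset.univ_unique, Fin.default_eq_zero, Fin.isValue, Finset.sum_singleton,
    sub_zero] at hd
  have h1 : ∫ x, sol N m l x * Δ φ x = (∫ x, Δ (W m l) x * φ x) + 2 * Real.pi * (2 * N * φ 0) := hd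
  have h2 : ∫ x, ‖x‖ ^ (2 * ((m : ℝ) - N)) * qf (Real.exp (sol N m l x)) * φ x =
      ∫ x, -(Δ (W m l) x * φ x) := by
    refine integral_congr_ae ?_
    filter_upwards [ae_ne] with x hx
    rw [rhs_eq hl hs hx]; ring
  rw [h1, h2, integral_neg]
  ring

lemma not_radial (N : ℝ) (m : ℕ) {l : ℝ} (hl : 0 < l) :
    ∃ x y : E2, x ≠ 0 ∧ y ≠ 0 ∧ ‖x‖ = ‖y‖ ∧ sol N m l x ≠ sol N m l y := by
  set z1 : ℂ := ((l⁻¹ : ℝ) : ℂ) with hz1
  set z2 : ℂ := ((l⁻¹ : ℝ) : ℂ) * Complex.exp ((Real.pi / (m + 1) : ℝ) * Complex.I) with hz2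
  have hn1 : ‖z1‖ = l⁻¹ := by
    rw [hz1, Complex.norm_real, Real.norm_eq_abs, abs_of_pos (by positivity)]
  have hn2 : ‖z2‖ = l⁻¹ := by
    rw [hz2, norm_mul, Complex.norm_exp_ofReal_mul_I, Complex.norm_real, Real.norm_eq_abs,
      abs_of_pos (by positivity), mul_one]
  have hlc : (l : ℂ) ≠ 0 := by exact_mod_cast hl.ne'
  have hP1 : Pz m l z1 = 0 := by
    rw [Pz, hz1]; push_cast; rw [mul_inv_cancel₀ hlc]; simp
  have hP2 : Pz m l z2 = -2 := by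
    rw [Pz, hz2]
    push_cast
    rw [← mul_assoc, mul_inv_cancel₀ hlc, one_mul, ← Complex.exp_nat_mul]
    have : ((m + 1 : ℕ) : ℂ) * ((Real.pi : ℂ) / ((m : ℂ) + 1) * Complex.I) = Real.pi * Complex.I := by
      have h : (m : ℂ) + 1 ≠ 0 := by exact_mod_cast Nat.succ_ne_zero m
      push_cast
      field_simp
    rw [this, Complex.exp_pi_mul_I]
    norm_num
  have hx1 : ‖L.symm z1‖ = l⁻¹ := by rw [LinearIsometryEquiv.norm_map, hn1]
  have hx2 : ‖L.symm z2‖ = l⁻¹ := by rw [LinearIsometryEquiv.norm_map, hn2]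
  refine ⟨L.symm z1, L.symm z2, ?_, ?_, ?_, ?_⟩
  · rw [← norm_ne_zero_iff, hx1]; positivity
  · rw [← norm_ne_zero_iff, hx2]; positivity
  · rw [hx1, hx2]
  · simp only [sol, W, hx1, hx2, LinearIsometryEquiv.apply_symm_apply, hP1, hP2]
    rw [norm_neg, Complex.norm_ofNat, norm_zero]
    intro h
    have h4 : (0 : ℝ) < Real.log ((2 : ℝ) ^ 2 + 1 ^ 2) := Real.log_pos (by norm_num)
    have h5 : Real.log ((0 : ℝ) ^ 2 + 1 ^ 2) = 0 := by norm_num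
    have h6 := sub_right_injective (add_left_cancel h)
    rw [h5, mul_zero] at h6
    rw [← (mul_eq_zero.1 h6.symm).resolve_left two_ne_zero] at h4
    exact lt_irrefl _ h4

end Pool.Agent.TH297.Liou
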