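import Pool.Agent.TH297.Liou.Nonl

set_option autoImplicit false
open MeasureTheory Filter Topology Set

namespace Pool.Agent.TH297.Liou

/-! The hypotheses on `f t = exp (κ t)`, `κ > 0`, and `g = gf`. -/

variable {κ : ℝ}

lemma deriv_fk (κ t : ℝ) : deriv (fun t : ℝ => Real.exp (κ * t)) t = κ * Real.exp (κ * t) := by
  have h : HasDerivAt (fun t : ℝ => κ * t) κ t := by simpa using (hasDerivAt_id t).const_mul κ
  rw [h.exp.deriv]; ring

lemma integrable_tf (hκ : 0 < κ) :
    IntegrableOn (fun t : ℝ => |t * Real.exp (κ * t)|) (Iic 0) := by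
  have h1 : IntegrableOn (fun t : ℝ => (2 / κ) * Real.exp (κ / 2 * t)) (Iic 0) :=
    (integrableOn_exp_mul_Iic (by positivity) 0).const_mul _
  refine Integrable.mono' h1 (by fun_prop) ?_
  rw [ae_restrict_iff' measurableSet_Iic]
  refine Eventually.of_forall fun t ht => ?_
  have ht' : t ≤ 0 := ht
  rw [Real.norm_eq_abs, abs_abs, abs_mul, abs_of_pos (Real.exp_pos _), abs_of_nonpos ht']
  have h2 : κ / 2 * (-t) ≤ Real.exp (κ / 2 * (-t)) := by
    have := Real.add_one_le_exp (κ / 2 * (-t)); linarith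
  have h3 : -t ≤ 2 / κ * Real.exp (κ / 2 * (-t)) := by
    rw [div_mul_eq_mul_div, le_div_iff₀ hκ]
    linarith
  calc -t * Real.exp (κ * t) ≤ 2 / κ * Real.exp (κ / 2 * (-t)) * Real.exp (κ * t) :=
        mul_le_mul_of_nonneg_right h3 (Real.exp_pos _).le
    _ = 2 / κ * Real.exp (κ / 2 * t) := by
        rw [mul_assoc, ← Real.exp_add]; congr 2; ring

/-- the weighted integral in (H4), (H5) is finite exactly for `M > κ` -/
lemma integrable_iff (hκ : 0 < κ) {M : ℝ} (hM : 0 < M) :
    IntegrableOn (fun t : ℝ => Real.exp (κ * t) * gf (-M * t)) (Ioi 0) ↔ κ < M := by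
  constructor
  · intro h
    by_contra hcon
    have hle : M ≤ κ := not_lt.1 hcon
    have h1 : IntegrableOn (fun _ : ℝ => (1 : ℝ)) (Ioi (1 / M)) := by
      have h2 : IntegrableOn (fun t : ℝ => Real.exp (κ * t) * gf (-M * t)) (Ioi (1 / M)) :=
        h.mono_set (Ioi_subset_Ioi (by positivity))
      refine Integrable.mono' h2 (by fun_prop) ?_
      rw [ae_restrict_iff' measurableSet_Ioi]
      refine Eventually.of_forall fun t ht => ?_
      have ht' : 1 / M < t := ht
      have ht0 : 0 < t := lt_trans (by positivity) ht'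
      rw [div_lt_iff₀ hM] at ht'
      rw [gf_of_le (by nlinarith), ← Real.exp_add, norm_one]
      apply Real.one_le_exp
      nlinarith
    rw [integrableOn_const_iff] at h1
    simp at h1
  · intro h
    have h1 : IntegrableOn (fun t : ℝ => Real.exp (-(M - κ) * t)) (Ioi 0) :=
      integrableOn_exp_mul_Ioi (by linarith) 0
    refine Integrable.mono' h1 ?_ ?_
    · refine (Continuous.mul (by fun_prop) ?_).aestronglyMeasurable
      exact contDiff_gf.continuous.comp (by fun_prop)
    · refine Eventually.of_forall fun t => ?_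
      rw [norm_mul, Real.norm_of_nonneg (Real.exp_pos _).le, Real.norm_of_nonneg (gf_nonneg _)]
      calc Real.exp (κ * t) * gf (-M * t) ≤ Real.exp (κ * t) * Real.exp (-M * t) :=
            mul_le_mul_of_nonneg_left (gf_le_exp _) (Real.exp_pos _).le
        _ = Real.exp (-(M - κ) * t) := by rw [← Real.exp_add]; congr 1; ring

lemma sInf_eq (hκ : 0 < κ) :
    sInf {M : ℝ | 0 < M ∧ IntegrableOn (fun t : ℝ => Real.exp (κ * t) * gf (-M * t)) (Ioi 0)} = κ := by
  have : {M : ℝ | 0 < M ∧ IntegrableOn (fun t : ℝ => Real.exp (κ * t) * gf (-M * t)) (Ioi 0)}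
      = Ioi κ := by
    ext M
    constructor
    · rintro ⟨h1, h2⟩
      exact (integrable_iff hκ h1).1 h2
    · intro h
      have h1 : 0 < M := lt_trans hκ h
      exact ⟨h1, (integrable_iff hκ h1).2 h⟩
  rw [this, csInf_Ioi]

end Pool.Agent.TH297.Liou
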