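import Mathlib

set_option autoImplicit false
open MeasureTheory Filter Topology Set

namespace Pool.Agent.TH297.Liou

/-- The cut-off factor: `1` for `u ≤ -1`, `exp (1/u)` for `-1/2 ≤ u < 0`, `0` for `u ≥ 0`. -/
noncomputable def kf (u : ℝ) : ℝ :=
  if u < 0 then Real.exp (Real.smoothTransition (2 * u + 2) / u) else 0

/-- The nonlinearity in the variable `u`. -/
noncomputable def gf (u : ℝ) : ℝ := Real.exp u * kf u

/-- The nonlinearity in the variable `s = e ^ u`. -/
noncomputable def qf (s : ℝ) : ℝ := s * kf (Real.log s)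

lemma qf_exp (u : ℝ) : qf (Real.exp u) = gf u := by
  simp [qf, gf]

lemma kf_of_le {u : ℝ} (h : u ≤ -1) : kf u = 1 := by
  have h1 : u < 0 := by linarith
  rw [kf, if_pos h1, Real.smoothTransition.zero_of_nonpos (by linarith)]
  simp

lemma kf_of_nonneg {u : ℝ} (h : 0 ≤ u) : kf u = 0 := by
  rw [kf, if_neg (not_lt.2 h)]

lemma kf_of_ge {u : ℝ} (h : -(1 / 2) ≤ u) : kf u = expNegInvGlue (-u) := by
  by_cases hu : u < 0
  · rw [kf, if_pos hu, Real.smoothTransition.one_of_one_le (by linarith), expNegInvGlue,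
      if_neg (by linarith)]
    congr 1
    rw [inv_neg, neg_neg, one_div]
  · rw [kf_of_nonneg (not_lt.1 hu), expNegInvGlue.zero_of_nonpos (by linarith)]

lemma kf_pos {u : ℝ} (h : u < 0) : 0 < kf u := by
  rw [kf, if_pos h]; positivity

lemma kf_nonneg (u : ℝ) : 0 ≤ kf u := by
  unfold kf; split_ifs
  · positivity
  · exact le_rfl

lemma kf_le_one (u : ℝ) : kf u ≤ 1 := by
  unfold kf; split_ifs with h
  · rw [Real.exp_le_one_iff]
    exact div_nonpos_of_nonneg_of_nonpos (Real.smoothTransition.nonneg _) h.le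
  · exact zero_le_one

lemma gf_of_le {u : ℝ} (h : u ≤ -1) : gf u = Real.exp u := by
  rw [gf, kf_of_le h, mul_one]

lemma gf_of_nonneg {u : ℝ} (h : 0 ≤ u) : gf u = 0 := by
  rw [gf, kf_of_nonneg h, mul_zero]

lemma gf_pos {u : ℝ} (h : u < 0) : 0 < gf u := mul_pos (Real.exp_pos _) (kf_pos h)

lemma gf_nonneg (u : ℝ) : 0 ≤ gf u := mul_nonneg (Real.exp_pos _).le (kf_nonneg u)

lemma gf_le_exp (u : ℝ) : gf u ≤ Real.exp u := by
  have := mul_le_mul_of_nonneg_left (kf_le_one u) (Real.exp_pos u).le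
  rwa [mul_one] at this

lemma contDiff_kf : ContDiff ℝ ((⊤ : ℕ∞) : WithTop ℕ∞) kf := by
  rw [contDiff_iff_contDiffAt]
  intro u
  by_cases hu : u < 0
  · have h1 : kf =ᶠ[𝓝 u] fun u => Real.exp (Real.smoothTransition (2 * u + 2) / u) := by
      filter_upwards [Iio_mem_nhds hu] with v hv
      rw [kf, if_pos (mem_Iio.1 hv)]
    refine ContDiffAt.congr_of_eventuallyEq ?_ h1
    refine ContDiffAt.exp (ContDiffAt.div ?_ contDiffAt_id hu.ne)
    exact Real.smoothTransition.contDiffAt.comp u (by fun_prop)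
  · have h1 : kf =ᶠ[𝓝 u] fun u => expNegInvGlue (-u) := by
      filter_upwards [Ioi_mem_nhds (show -(1 / 2) < u by linarith [not_lt.1 hu])] with v hv
      exact kf_of_ge (le_of_lt hv)
    refine ContDiffAt.congr_of_eventuallyEq ?_ h1
    exact (expNegInvGlue.contDiff.comp contDiff_neg).contDiffAt

lemma contDiff_gf : ContDiff ℝ ((⊤ : ℕ∞) : WithTop ℕ∞) gf :=
  Real.contDiff_exp.mul contDiff_kf

lemma differentiable_gf : Differentiable ℝ gf := contDiff_gf.differentiable (by simp)

lemma differentiable_kf : Differentiable ℝ kf := contDiff_kf.differentiable (by simp)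

lemma continuous_deriv_gf : Continuous (deriv gf) := contDiff_gf.continuous_deriv (by simp)

/-- `kf` is nonincreasing. -/
lemma kf_antitone : Antitone kf := by
  intro u v huv
  by_cases hv : v < 0
  · have hu : u < 0 := lt_of_le_of_lt huv hv
    rw [kf, if_pos hv, kf, if_pos hu, Real.exp_le_exp]
    have h1 : Real.smoothTransition (2 * u + 2) ≤ Real.smoothTransition (2 * v + 2) :=
      Real.smoothTransition.monotone (by linarith)
    have h2 := Real.smoothTransition.nonneg (2 * u + 2)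
    have h3 : 0 < -u := by linarith
    have h4 : 0 < -v := by linarith
    have h5 : Real.smoothTransition (2 * u + 2) / -u ≤ Real.smoothTransition (2 * v + 2) / -v :=
      div_le_div₀ (Real.smoothTransition.nonneg _) h1 h4 (by linarith)
    rw [div_neg, div_neg] at h5
    linarith
  · rw [kf_of_nonneg (not_lt.1 hv)]
    exact kf_nonneg u

lemma deriv_kf_nonpos (u : ℝ) : deriv kf u ≤ 0 := kf_antitone.deriv_nonpos

lemma hasDerivAt_gf (u : ℝ) : HasDerivAt gf (gf u + Real.exp u * deriv kf u) u := by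
  have h := (Real.hasDerivAt_exp u).mul (differentiable_kf u).hasDerivAt
  exact h

lemma deriv_gf (u : ℝ) : deriv gf u = gf u + Real.exp u * deriv kf u := (hasDerivAt_gf u).deriv

lemma deriv_gf_le (u : ℝ) : deriv gf u ≤ gf u := by
  rw [deriv_gf]
  nlinarith [Real.exp_pos u, deriv_kf_nonpos u, mul_nonneg (Real.exp_pos u).le
    (neg_nonneg.2 (deriv_kf_nonpos u))]

lemma deriv_gf_of_lt {u : ℝ} (h : u < -1) : deriv gf u = Real.exp u := by
  have h1 : gf =ᶠ[𝓝 u] Real.exp := by
    filter_upwards [Iio_mem_nhds h] with v hv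
    exact gf_of_le (le_of_lt hv)
  rw [h1.deriv_eq]
  simp

lemma deriv_gf_of_gt {u : ℝ} (h : 0 < u) : deriv gf u = 0 := by
  have h1 : gf =ᶠ[𝓝 u] fun _ => 0 := by
    filter_upwards [Ioi_mem_nhds h] with v hv
    exact gf_of_nonneg (le_of_lt hv)
  rw [h1.deriv_eq]
  simp

lemma deriv_gf_near {u : ℝ} (h1 : -(1 / 2) < u) (h2 : u < 0) : deriv gf u ≤ 0 := by
  have h3 : gf =ᶠ[𝓝 u] fun u => Real.exp (u + u⁻¹) := by
    filter_upwards [Ioi_mem_nhds h1, Iio_mem_nhds h2] with v hv hv2
    rw [gf, kf, if_pos (mem_Iio.1 hv2), Real.smoothTransition.one_of_one_le (by linarith [mem_Ioi.1 hv]),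
      ← Real.exp_add, one_div]
  have h4 : HasDerivAt (fun u : ℝ => Real.exp (u + u⁻¹)) (Real.exp (u + u⁻¹) * (1 + -(u ^ 2)⁻¹)) u :=
    ((hasDerivAt_id u).add (hasDerivAt_inv h2.ne)).exp
  rw [h3.deriv_eq, h4.deriv]
  have h5 : u ^ 2 < 1 := by nlinarith
  have h6 : 0 < u ^ 2 := by have := h2.ne; positivity
  have h7 : 1 ≤ (u ^ 2)⁻¹ := (one_le_inv₀ h6).2 h5.le
  nlinarith [Real.exp_pos (u + u⁻¹)]

lemma deriv_gf_nonpos {u : ℝ} (h1 : -(1 / 4) ≤ u) (h2 : u ≤ 0) : deriv gf u ≤ 0 := by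
  rcases h2.lt_or_eq with h | h
  · exact deriv_gf_near (by linarith) h
  · rw [h]
    have hc : ContinuousWithinAt (deriv gf) (Iio 0) 0 := continuous_deriv_gf.continuousWithinAt
    refine le_of_tendsto hc ?_
    filter_upwards [Ioo_mem_nhdsLT (show (-(1 / 2) : ℝ) < 0 by norm_num)] with v hv
    exact deriv_gf_near hv.1 hv.2

lemma exists_bound : ∃ C, ∀ u, |gf u| + |deriv gf u| ≤ C := by
  obtain ⟨B, hB⟩ := (isCompact_Icc (a := (-2 : ℝ)) (b := 1)).exists_bound_of_continuousOn
    continuous_deriv_gf.continuousOn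
  refine ⟨1 + (|B| + 1), fun u => add_le_add ?_ ?_⟩
  · rw [abs_of_nonneg (gf_nonneg u)]
    by_cases hu : u ≤ 0
    · exact (gf_le_exp u).trans (Real.exp_le_one_iff.2 hu)
    · rw [gf_of_nonneg (not_le.1 hu).le]; exact zero_le_one
  · by_cases h1 : u < -1
    · rw [deriv_gf_of_lt h1, abs_of_pos (Real.exp_pos _)]
      have : Real.exp u ≤ 1 := Real.exp_le_one_iff.2 (by linarith)
      linarith [abs_nonneg B]
    · by_cases h2 : 0 < u
      · rw [deriv_gf_of_gt h2]; simp; positivity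
      · have := hB u ⟨by linarith, by linarith⟩
        rw [Real.norm_eq_abs] at this
        linarith [le_abs_self B]

lemma integral_gf_of_le {u : ℝ} (h : u ≤ -1) : ∫ s in Iic u, gf s = Real.exp u := by
  rw [← integral_exp_Iic u]
  refine setIntegral_congr_fun measurableSet_Iic fun s hs => ?_
  exact gf_of_le (le_trans hs h)

lemma integrableOn_gf (u : ℝ) : IntegrableOn gf (Iic u) := by
  refine Integrable.mono' (integrableOn_exp_Iic u) contDiff_gf.continuous.aestronglyMeasurable ?_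
  refine Eventually.of_forall fun s => ?_
  rw [Real.norm_of_nonneg (gf_nonneg s)]
  exact gf_le_exp s

/-- `∫_{-∞}^u g ≥ g(u)`. -/
lemma le_integral_gf (u : ℝ) : gf u ≤ ∫ s in Iic u, gf s := by
  by_cases h : u ≤ -1
  · rw [integral_gf_of_le h, gf_of_le h]
  · have h' : -1 ≤ u := (not_le.1 h).le
    have h1 : ∫ s in Iic u, gf s = (∫ s in Iic (-1 : ℝ), gf s) + ∫ s in (-1 : ℝ)..u, gf s := by
      rw [← intervalIntegral.integral_Iic_sub_Iic (integrableOn_gf _) (integrableOn_gf _)]
      ring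
    have h2 : ∫ s in (-1 : ℝ)..u, deriv gf s = gf u - gf (-1) := by
      refine intervalIntegral.integral_eq_sub_of_hasDerivAt
        (fun x _ => (differentiable_gf x).hasDerivAt) ?_
      exact continuous_deriv_gf.intervalIntegrable _ _
    have h3 : ∫ s in (-1 : ℝ)..u, deriv gf s ≤ ∫ s in (-1 : ℝ)..u, gf s :=
      intervalIntegral.integral_mono_on h' (continuous_deriv_gf.intervalIntegrable _ _)
        (contDiff_gf.continuous.intervalIntegrable _ _) fun s _ => deriv_gf_le s
    rw [h1, integral_gf_of_le le_rfl]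
    rw [h2, gf_of_le le_rfl] at h3
    linarith

end Pool.Agent.TH297.Liou
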