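import Pool.Agent.TH297.Liou.Hyps
import Pool.Agent.H314.CS.Dist
import Pool.Agent.H792R2.SS.LB
import Pool.Agent.H792R2.SS.CH

set_option autoImplicit false
open MeasureTheory Filter Topology Set Laplacian InnerProductSpace

namespace Pool.Agent.TH297.Liou

abbrev E2 := EuclideanSpace ℝ (Fin 2)

/-- the identification of the plane with `ℂ` -/
noncomputable def L : E2 ≃ₗᵢ[ℝ] ℂ := Complex.orthonormalBasisOneI.repr.symm

lemma laplacian_comp_isometry {E F : Type*} [NormedAddCommGroup E] [InnerProductSpace ℝ E]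
    [FiniteDimensional ℝ E] [NormedAddCommGroup F] [InnerProductSpace ℝ F]
    [FiniteDimensional ℝ F] (A : E ≃ₗᵢ[ℝ] F) {f : F → ℝ} (hf : ContDiff ℝ 2 f) (x : E) :
    Δ (fun y => f (A y)) x = Δ f (A x) := by
  rw [laplacian_eq_iteratedFDeriv_orthonormalBasis _ (stdOrthonormalBasis ℝ E),
    laplacian_eq_iteratedFDeriv_orthonormalBasis _ ((stdOrthonormalBasis ℝ E).map A)]
  refine Finset.sum_congr rfl fun i _ => ?_
  have h := ContinuousLinearMap.iteratedFDeriv_comp_right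
    (A.toContinuousLinearEquiv : E →L[ℝ] F) hf x (i := 2) (by norm_num)
  have e : (f ∘ (A.toContinuousLinearEquiv : E →L[ℝ] F)) = fun y => f (A y) := rfl
  rw [e] at h
  rw [h]
  simp only [ContinuousMultilinearMap.compContinuousLinearMap_apply]
  congr 1
  ext j
  fin_cases j <;> simp

/-- the polynomial `(l z)^(m+1) - 1` -/
noncomputable def Pz (m : ℕ) (l : ℝ) (z : ℂ) : ℂ := ((l : ℂ) * z) ^ (m + 1) - 1

/-- the smooth part of the solution -/
noncomputable def W (m : ℕ) (l : ℝ) (x : E2) : ℝ :=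
  Real.log (8 * ((m : ℝ) + 1) ^ 2 * l ^ (2 * m + 2)) - 2 * Real.log (‖Pz m l (L x)‖ ^ 2 + 1 ^ 2)

/-- the solution -/
noncomputable def sol (N : ℝ) (m : ℕ) (l : ℝ) (x : E2) : ℝ :=
  2 * N * Real.log ‖x‖ + W m l x

lemma analytic_Pz (m : ℕ) (l : ℝ) (z : ℂ) : AnalyticAt ℂ (Pz m l) z := by
  unfold Pz
  fun_prop

lemma deriv_Pz (m : ℕ) (l : ℝ) (z : ℂ) :
    deriv (Pz m l) z = ((m : ℂ) + 1) * ((l : ℂ) * z) ^ m * l := by
  have h1 : HasDerivAt (fun z : ℂ => (l : ℂ) * z) (l : ℂ) z := by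
    simpa using (hasDerivAt_id z).const_mul (l : ℂ)
  have h2 := (h1.pow (m + 1)).sub_const (1 : ℂ)
  have h3 : deriv (Pz m l) z = _ := h2.deriv
  rw [h3]
  push_cast
  simp

lemma norm_deriv_Pz {m : ℕ} {l : ℝ} (hl : 0 < l) (z : ℂ) :
    ‖deriv (Pz m l) z‖ = (m + 1) * (l * ‖z‖) ^ m * l := by
  rw [deriv_Pz, norm_mul, norm_mul, norm_pow, norm_mul, Complex.norm_real, Real.norm_eq_abs,
    abs_of_pos hl]
  congr 2
  have : ((m : ℂ) + 1) = ((m + 1 : ℕ) : ℂ) := by push_cast; ring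
  rw [this, Complex.norm_natCast]
  push_cast; ring

lemma contDiff_logP (m : ℕ) (l : ℝ) :
    ContDiff ℝ ((⊤ : ℕ∞) : WithTop ℕ∞) (fun z : ℂ => Real.log (‖Pz m l z‖ ^ 2 + 1 ^ 2)) := by
  refine ContDiff.log ?_ ?_
  · refine ContDiff.add ?_ contDiff_const
    refine ContDiff.norm_sq ℝ ?_
    unfold Pz
    fun_prop
  · intro z; positivity

lemma contDiff_W (m : ℕ) (l : ℝ) : ContDiff ℝ ((⊤ : ℕ∞) : WithTop ℕ∞) (W m l) := by
  unfold W
  refine contDiff_const.sub (contDiff_const.mul ?_)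
  exact (contDiff_logP m l).comp L.toContinuousLinearEquiv.contDiff

lemma laplacian_W {m : ℕ} {l : ℝ} (hl : 0 < l) (x : E2) :
    Δ (W m l) x = -(8 * ((m : ℝ) + 1) ^ 2 * l ^ (2 * m + 2) * ‖x‖ ^ (2 * m) /
      (‖Pz m l (L x)‖ ^ 2 + 1 ^ 2) ^ 2) := by
  have hLB := (Pool.Agent.H792R2.SS.t_LB Pool.Agent.H792R2.SS.t_CH (Pz m l) 1 (L x)
    (analytic_Pz m l _) one_pos).2
  unfold Pool.Agent.H792R2.SS.Lap at hLB
  have h2 : ContDiff ℝ 2 (fun z : ℂ => Real.log (‖Pz m l z‖ ^ 2 + 1 ^ 2)) :=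
    contDiff_infty.1 (contDiff_logP m l) 2
  have h3 := laplacian_comp_isometry L h2 x
  have h4 : ContDiff ℝ 2 (fun y => Real.log (‖Pz m l (L y)‖ ^ 2 + 1 ^ 2)) :=
    h2.comp L.toContinuousLinearEquiv.contDiff
  have e : W m l = (fun _ => Real.log (8 * ((m : ℝ) + 1) ^ 2 * l ^ (2 * m + 2))) +
      (-2 : ℝ) • (fun y => Real.log (‖Pz m l (L y)‖ ^ 2 + 1 ^ 2)) := by
    funext y
    simp only [W, Pi.add_apply, Pi.smul_apply, smul_eq_mul]
    ring
  have h5 : ContDiffAt ℝ 2 ((-2 : ℝ) • (fun y => Real.log (‖Pz m l (L y)‖ ^ 2 + 1 ^ 2))) x :=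
    h4.contDiffAt.const_smul (-2 : ℝ)
  rw [e, ContDiffAt.laplacian_add contDiffAt_const h5,
    laplacian_smul _ h4.contDiffAt, h3, hLB, norm_deriv_Pz hl]
  simp only [laplacian_const, LinearIsometryEquiv.norm_map, smul_eq_mul]
  simp only [Pi.zero_apply, zero_add, one_pow, mul_one]
  rw [mul_div_assoc', ← neg_div]
  congr 1
  ring

end Pool.Agent.TH297.Liou
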